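import Pool.Agent.Helper82.KZ.Global

set_option autoImplicit false

/-!
# Infinitely many members without torsion in the isogeny class
-/

namespace Pool.Agent.Helper82.KZ

open WeierstrassCurve Pool.Agent.Helper28.Koblitz Filter

/-- The integral member of the family with the integral parameter `v`. -/
def mem (v : ℤ) : WeierstrassCurve ℤ := ⟨0, 0, 0, -27 * fC4 v, -54 * fC6 v⟩

theorem mem_c₄ (v : ℤ) : (mem v).c₄ = 6 ^ 4 * fC4 v := by
  simp only [WeierstrassCurve.c₄, WeierstrassCurve.b₂, WeierstrassCurve.b₄, mem]; ring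

theorem mem_c₆ (v : ℤ) : (mem v).c₆ = 6 ^ 6 * fC6 v := by
  simp only [WeierstrassCurve.c₆, WeierstrassCurve.b₂, WeierstrassCurve.b₄,
    WeierstrassCurve.b₆, mem]; ring

theorem mem_Δ (v : ℤ) : (mem v).Δ = 6 ^ 12 * (fN v * fP v ^ 4 * fM v ^ 7) ^ 2 := by
  have h := (mem v).c_relation
  rw [mem_c₄, mem_c₆] at h
  have h2 := fdisc_eq v
  have h3 : (1728 : ℤ) * (mem v).Δ = 1728 * (6 ^ 12 * (fN v * fP v ^ 4 * fM v ^ 7) ^ 2) := by
    linear_combination h + 6 ^ 12 * h2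
  exact mul_left_cancel₀ (by norm_num) h3

theorem cast_fC4 (v : ℤ) : ((fC4 v : ℤ) : ℚ) = fC4 (v : ℚ) := by
  have := map_fC4 (Int.castRingHom ℚ) v
  simpa using this

theorem cast_fC6 (v : ℤ) : ((fC6 v : ℤ) : ℚ) = fC6 (v : ℚ) := by
  have := map_fC6 (Int.castRingHom ℚ) v
  simpa using this

theorem mem_member {v : ℤ} (hv : 0 < v) : Member (mem v) (v : ℚ) := by
  have hv' : (0 : ℚ) < v := by exact_mod_cast hv
  refine ⟨hv'.ne', by linarith, 6, by norm_num, ?_, ?_⟩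
  · rw [mem_c₄, ← cast_fC4]
    push_cast
    ring
  · rw [mem_c₆, ← cast_fC6]
    push_cast
    ring

/-- The growth of the `j`-invariant. -/
theorem j_growth {x : ℚ} (hx : 2 ≤ x) :
    x / 2 * (fN x * fP x ^ 4 * fM x ^ 7) ^ 2 ≤ fC4 x ^ 3 := by
  have hx0 : 0 < x := by linarith
  have hN : x ^ 3 ≤ fN x := by unfold fN; nlinarith
  have hM : fM x ≤ 2 * x ^ 2 := by unfold fM; nlinarith
  have hM0 : 0 ≤ fM x := by unfold fM; positivity
  have hn : x ^ 2 ≤ fn x := by unfold fn; nlinarith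
  have hP : x ^ 6 ≤ fP x := by
    have : 0 ≤ 5 * x ^ 5 + 12 * x ^ 4 + 9 * x ^ 3 + 2 * x ^ 2 + x + 1 := by positivity
    unfold fP; linarith
  have hN0 : 0 < fN x := lt_of_lt_of_le (by positivity) hN
  have hP0 : 0 < fP x := lt_of_lt_of_le (by positivity) hP
  have hn0 : 0 < fn x := lt_of_lt_of_le (by positivity) hn
  have hT : fN x ^ 4 ≤ fN x ^ 4 + 5 * fN x ^ 2 * fM x ^ 2 + fM x ^ 4 := by
    have : 0 ≤ 5 * fN x ^ 2 * fM x ^ 2 + fM x ^ 4 := by positivity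
    linarith
  have hb : x / 2 ≤ (x / 2) ^ 14 := le_self_pow₀ (by linarith) (by norm_num)
  calc x / 2 * (fN x * fP x ^ 4 * fM x ^ 7) ^ 2
      = x / 2 * (fN x ^ 2 * fP x ^ 8) * fM x ^ 14 := by ring
    _ ≤ (x / 2) ^ 14 * (fN x ^ 2 * fP x ^ 8) * (2 * x ^ 2) ^ 14 := by gcongr
    _ = (x ^ 2) ^ 3 * (x ^ 6 * fP x ^ 8) * ((x ^ 3) ^ 10 * fN x ^ 2) := by ring
    _ ≤ fn x ^ 3 * (fP x * fP x ^ 8) * (fN x ^ 10 * fN x ^ 2) := by gcongr
    _ = fn x ^ 3 * fP x ^ 9 * (fN x ^ 4) ^ 3 := by ring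
    _ ≤ fn x ^ 3 * fP x ^ 9 * (fN x ^ 4 + 5 * fN x ^ 2 * fM x ^ 2 + fM x ^ 4) ^ 3 := by gcongr
    _ = fC4 x ^ 3 := by unfold fC4; ring

theorem j_large {v : ℤ} (hv : 2 ≤ v) {B : ℚ} (hB : 2 * B < v) :
    B < ((mem v).c₄ : ℚ) ^ 3 / ((mem v).Δ : ℚ) := by
  have hv' : (2 : ℚ) ≤ v := by exact_mod_cast hv
  have h1 : ((mem v).c₄ : ℚ) = 6 ^ 4 * fC4 (v : ℚ) := by
    rw [mem_c₄, ← cast_fC4]; push_cast; ring
  have hrel : (1728 * (mem v).Δ : ℤ) = (mem v).c₄ ^ 3 - (mem v).c₆ ^ 2 := (mem v).c_relation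
  have hrel' : (1728 * ((mem v).Δ : ℚ)) = ((mem v).c₄ : ℚ) ^ 3 - ((mem v).c₆ : ℚ) ^ 2 := by
    exact_mod_cast hrel
  have h3 : ((mem v).c₆ : ℚ) = 6 ^ 6 * fC6 (v : ℚ) := by
    rw [mem_c₆, ← cast_fC6]; push_cast; ring
  have h2 : ((mem v).Δ : ℚ) = 6 ^ 12 * (fN (v : ℚ) * fP (v : ℚ) ^ 4 * fM (v : ℚ) ^ 7) ^ 2 := by
    rw [h1, h3] at hrel'
    have h5 := fdisc_eq (v : ℚ)
    have h6 : (1728 : ℚ) * ((mem v).Δ : ℚ) =
        1728 * (6 ^ 12 * (fN (v : ℚ) * fP (v : ℚ) ^ 4 * fM (v : ℚ) ^ 7) ^ 2) := by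
      linear_combination hrel' + 6 ^ 12 * h5
    exact mul_left_cancel₀ (by norm_num) h6
  have hM : fM (v : ℚ) ≠ 0 := fM_ne_zero (by linarith) (by linarith)
  have hpos : 0 < (fN (v : ℚ) * fP (v : ℚ) ^ 4 * fM (v : ℚ) ^ 7) ^ 2 := by
    have := mul_ne_zero (mul_ne_zero (fN_ne_zero (v : ℚ)) (pow_ne_zero 4 (fP_pos hM).ne'))
      (pow_ne_zero 7 hM)
    positivity
  rw [h1, h2, mul_pow, ← pow_mul, mul_div_mul_left _ _ (by positivity), lt_div_iff₀ hpos]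
  refine lt_of_lt_of_le ?_ (j_growth hv')
  exact mul_lt_mul_of_pos_right (by linarith) hpos

/-- The reduction modulo `5`. -/
theorem mem_five {v : ℤ} (hv : (v : ZMod 5) = 1) :
    ¬ ((5 : ℤ) ∣ (mem v).Δ) ∧ numPts (mem v) 5 = 5 := by
  constructor
  · have h : ((mem v).Δ : ZMod 5) ≠ 0 := by
      have h1 : ((mem v).Δ : ZMod 5) = 6 ^ 12 * (fN (1 : ZMod 5) * fP (1 : ZMod 5) ^ 4 *
          fM (1 : ZMod 5) ^ 7) ^ 2 := by
        rw [mem_Δ, ← hv]
        have a1 := map_fN (Int.castRingHom (ZMod 5)) v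
        have a2 := map_fP (Int.castRingHom (ZMod 5)) v
        have a3 := map_fM (Int.castRingHom (ZMod 5)) v
        simp only [eq_intCast] at a1 a2 a3
        push_cast
        rw [a1, a2, a3]
        norm_num
      rw [h1]
      decide
    intro hd
    apply h
    rw [ZMod.intCast_zmod_eq_zero_iff_dvd]
    exact hd
  · unfold numPts
    have hs : ∀ q : ZMod 5 × ZMod 5,
        ((mem v).map (Int.castRingHom (ZMod 5))).toAffine.Equation q.1 q.2 ↔
        q.2 ^ 2 = q.1 ^ 3 + (-27 * fC4 (1 : ZMod 5)) * q.1 + (-54 * fC6 (1 : ZMod 5)) := by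
      intro q
      rw [WeierstrassCurve.Affine.equation_iff, ← hv]
      have a1 := map_fC4 (Int.castRingHom (ZMod 5)) v
      have a2 := map_fC6 (Int.castRingHom (ZMod 5)) v
      simp only [eq_intCast] at a1 a2
      rw [← a1, ← a2]
      simp [mem, WeierstrassCurve.map]
    rw [Nat.card_congr (Equiv.subtypeEquivRight hs), Nat.card_eq_fintype_card]
    decide

/-- The reduction modulo `7`. -/
theorem mem_seven {v : ℤ} (hv : (v : ZMod 7) = 1) :
    ¬ ((7 : ℤ) ∣ (mem v).Δ) ∧ numPts (mem v) 7 = 11 := by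
  constructor
  · have h : ((mem v).Δ : ZMod 7) ≠ 0 := by
      have h1 : ((mem v).Δ : ZMod 7) = 6 ^ 12 * (fN (1 : ZMod 7) * fP (1 : ZMod 7) ^ 4 *
          fM (1 : ZMod 7) ^ 7) ^ 2 := by
        rw [mem_Δ, ← hv]
        have a1 := map_fN (Int.castRingHom (ZMod 7)) v
        have a2 := map_fP (Int.castRingHom (ZMod 7)) v
        have a3 := map_fM (Int.castRingHom (ZMod 7)) v
        simp only [eq_intCast] at a1 a2 a3
        push_cast
        rw [a1, a2, a3]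
        norm_num
      rw [h1]
      decide
    intro hd
    apply h
    rw [ZMod.intCast_zmod_eq_zero_iff_dvd]
    exact hd
  · unfold numPts
    have hs : ∀ q : ZMod 7 × ZMod 7,
        ((mem v).map (Int.castRingHom (ZMod 7))).toAffine.Equation q.1 q.2 ↔
        q.2 ^ 2 = q.1 ^ 3 + (-27 * fC4 (1 : ZMod 7)) * q.1 + (-54 * fC6 (1 : ZMod 7)) := by
      intro q
      rw [WeierstrassCurve.Affine.equation_iff, ← hv]
      have a1 := map_fC4 (Int.castRingHom (ZMod 7)) v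
      have a2 := map_fC6 (Int.castRingHom (ZMod 7)) v
      simp only [eq_intCast] at a1 a2
      rw [← a1, ← a2]
      simp [mem, WeierstrassCurve.map]
    rw [Nat.card_congr (Equiv.subtypeEquivRight hs), Nat.card_eq_fintype_card]
    decide

/-- Infinitely many members, up to isomorphism over an algebraic closure, without torsion in the
isogeny class. -/
theorem exists_member (B : ℚ) : ∃ (E : WeierstrassCurve ℤ) (v : ℚ), Member E v ∧
    B < (E.c₄ : ℚ) ^ 3 / (E.Δ : ℚ) ∧ ¬ ((5 : ℤ) ∣ E.Δ) ∧ numPts E 5 = 5 ∧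
    ¬ ((7 : ℤ) ∣ E.Δ) ∧ numPts E 7 = 11 := by
  obtain ⟨n, hn⟩ := exists_nat_gt B
  set v : ℤ := 35 * (n + 1 : ℕ) + 1 with hv
  have hn' : (B : ℚ) < (n : ℤ) := by exact_mod_cast hn
  have h5 : (v : ZMod 5) = 1 := by
    have : v = 1 + 5 * (7 * (n + 1 : ℕ)) := by rw [hv]; ring
    rw [this]; push_cast
    have h0 : (5 : ZMod 5) = 0 := by decide
    rw [h0]; ring
  have h7 : (v : ZMod 7) = 1 := by
    have : v = 1 + 7 * (5 * (n + 1 : ℕ)) := by rw [hv]; ring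
    rw [this]; push_cast
    have h0 : (7 : ZMod 7) = 0 := by decide
    rw [h0]; ring
  have hv2 : 2 ≤ v := by omega
  have hvB : 2 * B < v := by
    have h1 : (0 : ℚ) ≤ (n : ℤ) := by exact_mod_cast Int.natCast_nonneg n
    rw [hv]
    push_cast at hn' h1 ⊢
    linarith
  exact ⟨mem v, v, mem_member (by omega), j_large hv2 hvB, (mem_five h5).1, (mem_five h5).2,
    (mem_seven h7).1, (mem_seven h7).2⟩

end Pool.Agent.Helper82.KZ
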