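import Pool.Agent.Helper82.KZ.Local

set_option autoImplicit false

/-!
# The family: an even number of points is divisible by 28
-/

namespace Pool.Agent.Helper82.KZ

open WeierstrassCurve Pool.Agent.Helper28.Koblitz Filter

section

variable {R S : Type*} [CommRing R] [CommRing S]

theorem map_fn (f : R →+* S) (v : R) : f (fn v) = fn (f v) := by simp [fn]
theorem map_fM (f : R →+* S) (v : R) : f (fM v) = fM (f v) := by simp [fM]
theorem map_fN (f : R →+* S) (v : R) : f (fN v) = fN (f v) := by simp [fN, map_ofNat]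
theorem map_fP (f : R →+* S) (v : R) : f (fP v) = fP (f v) := by simp [fP, map_ofNat]
theorem map_fC4 (f : R →+* S) (v : R) : f (fC4 v) = fC4 (f v) := by
  simp [fC4, map_fn, map_fM, map_fN, map_fP, map_ofNat]
theorem map_fC6 (f : R →+* S) (v : R) : f (fC6 v) = fC6 (f v) := by
  simp [fC6, map_fM, map_fN, map_fP, map_ofNat]

theorem fdisc_eq (v : R) : fC4 v ^ 3 - fC6 v ^ 2 = 1728 * (fN v * fP v ^ 4 * fM v ^ 7) ^ 2 := by
  have h := fQ_eq v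
  have h1 : fC4 v ^ 3 - fC6 v ^ 2 = fP v ^ 8 * ((fn v ^ 3 * fP v) *
      (fN v ^ 4 + 5 * fN v ^ 2 * fM v ^ 2 + fM v ^ 4) ^ 3 -
      (fN v ^ 8 + 14 * fN v ^ 6 * fM v ^ 2 + 63 * fN v ^ 4 * fM v ^ 4 +
        70 * fN v ^ 2 * fM v ^ 6 - 7 * fM v ^ 8) ^ 2) := by
    unfold fC4 fC6; ring
  rw [h1, ← h]
  ring

end

/-! ### Non-vanishing over the rational numbers -/

theorem fn_pos (v : ℚ) : 0 < fn v := by
  unfold fn; nlinarith [sq_nonneg (2 * v + 1)]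

/-- homogeneous parity -/
theorem odd_hom {m k : ℤ} (h : ¬ (Even m ∧ Even k)) :
    Odd (m ^ 3 + 2 * m ^ 2 * k - m * k ^ 2 - k ^ 3) := by
  rw [← Int.not_even_iff_odd]
  simp only [Int.even_add, Int.even_sub, Int.even_mul, Int.even_pow, even_two]
  tauto

theorem exists_num_den (v : ℚ) : ∃ m k : ℤ, (k : ℚ) ≠ 0 ∧ v * k = m ∧ ¬ (Even m ∧ Even k) := by
  refine ⟨v.num, v.den, ?_, ?_, ?_⟩
  · exact_mod_cast v.den_ne_zero
  · have := Rat.mul_den_eq_num v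
    exact_mod_cast this
  · rintro ⟨h1, h2⟩
    have h3 := v.reduced
    have h4 : 2 ∣ v.num.natAbs := Int.natAbs_dvd_natAbs.mpr (even_iff_two_dvd.mp h1)
    have h5 : 2 ∣ v.den := by exact_mod_cast even_iff_two_dvd.mp h2
    have := Nat.dvd_gcd h4 h5
    rw [Nat.coprime_iff_gcd_eq_one.mp h3] at this
    omega

theorem fN_ne_zero (v : ℚ) : fN v ≠ 0 := by
  obtain ⟨m, k, hk, hv, hpar⟩ := exists_num_den v
  intro h
  have h1 : ((m ^ 3 + 2 * m ^ 2 * k - m * k ^ 2 - k ^ 3 : ℤ) : ℚ) = 0 := by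
    push_cast
    rw [← hv]
    unfold fN at h
    linear_combination (k : ℚ) ^ 3 * h
  have h2 : (m ^ 3 + 2 * m ^ 2 * k - m * k ^ 2 - k ^ 3 : ℤ) = 0 := by exact_mod_cast h1
  have h3 := odd_hom hpar
  rw [h2] at h3
  exact absurd h3 (by decide)

theorem fT_ne_zero (v : ℚ) : fN v ^ 8 + 14 * fN v ^ 6 * fM v ^ 2 + 63 * fN v ^ 4 * fM v ^ 4 +
    70 * fN v ^ 2 * fM v ^ 6 - 7 * fM v ^ 8 ≠ 0 := by
  obtain ⟨m, k, hk, hv, hpar⟩ := exists_num_den v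
  intro h
  obtain ⟨N, hN⟩ : ∃ N, N = m ^ 3 + 2 * m ^ 2 * k - m * k ^ 2 - k ^ 3 := ⟨_, rfl⟩
  obtain ⟨M, hM⟩ : ∃ M, M = m * k * (m + k) := ⟨_, rfl⟩
  have hN' : fN v * k ^ 3 = N := by
    rw [hN]; push_cast; rw [← hv]; unfold fN; ring
  have hM' : fM v * k ^ 3 = M := by
    rw [hM]; push_cast; rw [← hv]; unfold fM; ring
  have h1 : ((N ^ 8 + 14 * N ^ 6 * M ^ 2 + 63 * N ^ 4 * M ^ 4 + 70 * N ^ 2 * M ^ 6 -
      7 * M ^ 8 : ℤ) : ℚ) = 0 := by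
    push_cast
    rw [← hN', ← hM']
    linear_combination (k : ℚ) ^ 24 * h
  have h2 : (N ^ 8 + 14 * N ^ 6 * M ^ 2 + 63 * N ^ 4 * M ^ 4 + 70 * N ^ 2 * M ^ 6 -
      7 * M ^ 8 : ℤ) = 0 := by exact_mod_cast h1
  have h3 : Odd N := by rw [hN]; exact odd_hom hpar
  have h4 : Even M := by
    rw [hM]
    simp only [Int.even_add, Int.even_mul]
    tauto
  have h5 : ¬ Even (N ^ 8 + 14 * N ^ 6 * M ^ 2 + 63 * N ^ 4 * M ^ 4 + 70 * N ^ 2 * M ^ 6 -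
      7 * M ^ 8) := by
    rw [← Int.not_even_iff_odd] at h3
    simp only [Int.even_add, Int.even_sub, Int.even_mul, Int.even_pow]
    tauto
  rw [h2] at h5
  exact h5 (by decide)

theorem fM_ne_zero {v : ℚ} (h0 : v ≠ 0) (h1 : v ≠ -1) : fM v ≠ 0 := by
  have h2 : v + 1 ≠ 0 := fun h => h1 (by linear_combination h)
  have h3 : fM v = v * (v + 1) := by unfold fM; ring
  rw [h3]
  exact mul_ne_zero h0 h2

theorem fP_pos {v : ℚ} (hM : fM v ≠ 0) : 0 < fP v := by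
  rw [fP_eq]
  have h1 : 0 < fM v ^ 2 := by positivity
  nlinarith [sq_nonneg (2 * fN v + fM v)]

theorem fC4_ne_zero {v : ℚ} (hM : fM v ≠ 0) : fC4 v ≠ 0 := by
  have h1 := fn_pos v
  have h2 := fP_pos hM
  have h3 : 0 < fM v ^ 4 := by positivity
  unfold fC4
  positivity

theorem fC6_ne_zero {v : ℚ} (hM : fM v ≠ 0) : fC6 v ≠ 0 := by
  have h2 := fP_pos hM
  unfold fC6
  exact neg_ne_zero.mpr (mul_ne_zero (pow_ne_zero _ h2.ne') (fT_ne_zero v))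

/-- `E` is isomorphic over `ℚ` to the member `v` of the family. -/
def Member (E : WeierstrassCurve ℤ) (v : ℚ) : Prop :=
  v ≠ 0 ∧ v ≠ -1 ∧ ∃ s : ℚ, s ≠ 0 ∧ (E.c₄ : ℚ) = s ^ 4 * fC4 v ∧ (E.c₆ : ℚ) = s ^ 6 * fC6 v

theorem Member.c₄_ne_zero {E : WeierstrassCurve ℤ} {v : ℚ} (h : Member E v) : E.c₄ ≠ 0 := by
  obtain ⟨h0, h1, s, hs, h4, h6⟩ := h
  intro h
  rw [h, Int.cast_zero] at h4
  exact mul_ne_zero (pow_ne_zero 4 hs) (fC4_ne_zero (fM_ne_zero h0 h1)) h4.symm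

theorem Member.c₆_ne_zero {E : WeierstrassCurve ℤ} {v : ℚ} (h : Member E v) : E.c₆ ≠ 0 := by
  obtain ⟨h0, h1, s, hs, h4, h6⟩ := h
  intro h
  rw [h, Int.cast_zero] at h6
  exact mul_ne_zero (pow_ne_zero 6 hs) (fC6_ne_zero (fM_ne_zero h0 h1)) h6.symm

theorem Member.isSquare {E : WeierstrassCurve ℤ} {v : ℚ} (h : Member E v) : IsSquare E.Δ := by
  obtain ⟨h0, h1, s, hs, h4, h6⟩ := h
  have hrel : (1728 * E.Δ : ℤ) = E.c₄ ^ 3 - E.c₆ ^ 2 := E.c_relation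
  have hrel' : (1728 * (E.Δ : ℚ)) = (E.c₄ : ℚ) ^ 3 - (E.c₆ : ℚ) ^ 2 := by exact_mod_cast hrel
  have h2 : ((E.Δ : ℤ) : ℚ) = (s ^ 6 * (fN v * fP v ^ 4 * fM v ^ 7)) ^ 2 := by
    have h3 := fdisc_eq v
    rw [h4, h6] at hrel'
    have h5 : (1728 : ℚ) * (E.Δ : ℚ) = 1728 * (s ^ 6 * (fN v * fP v ^ 4 * fM v ^ 7)) ^ 2 := by
      linear_combination hrel' + s ^ 12 * h3
    exact mul_left_cancel₀ (by norm_num) h5
  rw [← Rat.isSquare_intCast_iff, h2]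
  exact ⟨_, sq _⟩

end Pool.Agent.Helper82.KZ
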