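import Pool.Agent.Helper82.KZ.Family

set_option autoImplicit false

/-!
# An even number of points is divisible by 28
-/

namespace Pool.Agent.Helper82.KZ

open WeierstrassCurve Pool.Agent.Helper28.Koblitz Filter

/-- For the members of the family, for almost all primes `p`: if `|E(𝔽_p)|` is even then it is
divisible by 28. -/
theorem eventually_dvd {E : WeierstrassCurve ℤ} {v : ℚ} (h : Member E v) :
    ∀ᶠ p : ℕ in cofinite, p.Prime → ¬ (((p : ℕ) : ℤ) ∣ E.Δ) → 2 ∣ numPts E p →
      28 ∣ numPts E p := by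
  have hsq := h.isSquare
  obtain ⟨h0, h1, s, hs, h4, h6⟩ := h
  have hM := fM_ne_zero h0 h1
  have hbig : ∀ᶠ p : ℕ in cofinite, 3 < p := by
    rw [Filter.eventually_cofinite]
    refine (Set.finite_Iic 3).subset ?_
    intro p hp
    simpa using hp
  filter_upwards [hbig, eventually_mem_intRat v, eventually_mem_intRat s,
    eventually_num_ne_zero (fn_pos v).ne', eventually_num_ne_zero hM,
    eventually_num_ne_zero (fN_ne_zero v), eventually_num_ne_zero (fP_pos hM).ne',
    eventually_num_ne_zero hs] with p hp3 hv hs' c1 c2 c3 c4 c5 hp hgood h2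
  have : Fact p.Prime := ⟨hp⟩
  classical
  obtain ⟨w, hw⟩ : ∃ w : intRat p, (w : ℚ) = v := ⟨⟨v, hv⟩, rfl⟩
  obtain ⟨r, hr⟩ : ∃ r : intRat p, (r : ℚ) = s := ⟨⟨s, hs'⟩, rfl⟩
  have e2 := two_ne_zero_zmod hp (by omega)
  have e3 := three_ne_zero_zmod hp (by omega)
  have d1 : fn (redHom p w) ≠ 0 := by
    rw [← map_fn]
    apply redHom_ne_zero
    have : ((fn w : intRat p) : ℚ) = fn v := by
      rw [← hw]; exact map_fn (intRat p).subtype w
    rw [this]; exact c1
  have d2 : fM (redHom p w) ≠ 0 := by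
    rw [← map_fM]
    apply redHom_ne_zero
    have : ((fM w : intRat p) : ℚ) = fM v := by
      rw [← hw]; exact map_fM (intRat p).subtype w
    rw [this]; exact c2
  have d3 : fN (redHom p w) ≠ 0 := by
    rw [← map_fN]
    apply redHom_ne_zero
    have : ((fN w : intRat p) : ℚ) = fN v := by
      rw [← hw]; exact map_fN (intRat p).subtype w
    rw [this]; exact c3
  have d4 : fP (redHom p w) ≠ 0 := by
    rw [← map_fP]
    apply redHom_ne_zero
    have : ((fP w : intRat p) : ℚ) = fP v := by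
      rw [← hw]; exact map_fP (intRat p).subtype w
    rw [this]; exact c4
  have d5 : redHom p r ≠ 0 := by
    apply redHom_ne_zero
    rw [hr]; exact c5
  have g4 : (E.c₄ : ZMod p) = redHom p r ^ 4 * fC4 (redHom p w) := by
    have : ((E.c₄ : ℤ) : intRat p) = r ^ 4 * fC4 w := by
      apply (intRat p).subtype_injective
      rw [map_mul, map_pow, map_fC4, map_intCast]
      show (E.c₄ : ℚ) = (r : ℚ) ^ 4 * fC4 (w : ℚ)
      rw [hw, hr, h4]
    rw [← map_fC4, ← map_pow, ← map_mul, ← this, map_intCast]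
  have g6 : (E.c₆ : ZMod p) = redHom p r ^ 6 * fC6 (redHom p w) := by
    have : ((E.c₆ : ℤ) : intRat p) = r ^ 6 * fC6 w := by
      apply (intRat p).subtype_injective
      rw [map_mul, map_pow, map_fC6, map_intCast]
      show (E.c₆ : ℚ) = (r : ℚ) ^ 6 * fC6 (w : ℚ)
      rw [hw, hr, h6]
    rw [← map_fC6, ← map_pow, ← map_mul, ← this, map_intCast]
  have hcard := numPts_eq_card E (by omega) (by omega) hgood
  obtain ⟨x, hx⟩ := exists_root_of_two_dvd_card (A := -27 * (E.c₄ : ZMod p))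
    (B := -54 * (E.c₆ : ZMod p)) e2 (by rw [← hcard]; exact h2)
  have h7 : 7 ∣ numPts E p := by
    rw [hcard]
    exact seven_dvd_of_root e2 e3 d1 d2 d3 d4 d5 g4 g6 hx
  have h4' : numPts E p % 4 ≠ 2 := by
    intro h24
    obtain ⟨e, -, -, hns, -⟩ := exists_unique_root E (by omega) (by omega) hgood h24
    apply hns
    obtain ⟨y, hy⟩ := hsq
    exact ⟨(y : ZMod p), by rw [hy]; push_cast; ring⟩
  omega

theorem finite_exceptional {E : WeierstrassCurve ℤ} {v : ℚ} (h : Member E v) :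
    {p : ℕ | p.Prime ∧ ¬ (Odd (numPts E p) ∨ 28 ∣ numPts E p)}.Finite := by
  have hev := eventually_dvd h
  rw [Filter.eventually_cofinite] at hev
  have hΔ : E.Δ ≠ 0 := by
    intro h0
    have hrel := E.c_relation
    rw [h0, mul_zero] at hrel
    obtain ⟨h0', h1, s, hs, h4, h6⟩ := h
    have hM := fM_ne_zero h0' h1
    have hrel' : (0 : ℚ) = (E.c₄ : ℚ) ^ 3 - (E.c₆ : ℚ) ^ 2 := by exact_mod_cast hrel
    rw [h4, h6] at hrel'
    have h3 := fdisc_eq v
    have h5 : s ^ 12 * (1728 * (fN v * fP v ^ 4 * fM v ^ 7) ^ 2) = 0 := by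
      linear_combination -s ^ 12 * h3 - hrel'
    refine mul_ne_zero (pow_ne_zero 12 hs) (mul_ne_zero (by norm_num) (pow_ne_zero 2 ?_)) h5
    exact mul_ne_zero (mul_ne_zero (fN_ne_zero v) (pow_ne_zero 4 (fP_pos hM).ne'))
      (pow_ne_zero 7 hM)
  refine (hev.union (finite_dvd hΔ)).subset ?_
  rintro p ⟨hp, hno⟩
  by_contra hcon
  rw [Set.mem_union, not_or] at hcon
  obtain ⟨c1, c2⟩ := hcon
  apply hno
  rcases Nat.even_or_odd (numPts E p) with he | ho
  · right
    by_contra h28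
    apply c1
    intro hcc
    exact h28 (hcc hp c2 he.two_dvd)
  · left; exact ho

/-- If `N ≡ t u mod 28` for a unit `u` and an even `t`, and `N` is odd or divisible by `28`, then
`28 ∣ t`. -/
theorem dvd_of_unit_mul {t N : ℕ} (ht : 2 ∣ t) {u : ZMod 28} (hN : (N : ZMod 28) = (t : ZMod 28) * u)
    (hu : IsUnit u) (h : Odd N ∨ 28 ∣ N) : 28 ∣ t := by
  have h2 : 2 ∣ N := by
    obtain ⟨t', rfl⟩ := ht
    have h1 := congrArg (ZMod.castHom (show 2 ∣ 28 by norm_num) (ZMod 2)) hN
    rw [map_mul, map_natCast, map_natCast, Nat.cast_mul] at h1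
    have h0 : ((2 : ℕ) : ZMod 2) = 0 := by decide
    rw [h0, zero_mul, zero_mul] at h1
    exact (ZMod.natCast_eq_zero_iff _ _).mp h1
  have h3 : 28 ∣ N := by
    rcases h with h | h
    · exact absurd (even_iff_two_dvd.mpr h2) (Nat.not_even_iff_odd.mpr h)
    · exact h
  rw [← ZMod.natCast_eq_zero_iff, hN] at h3
  obtain ⟨w, rfl⟩ := hu
  have h4 : (t : ZMod 28) = 0 := by
    have := congrArg (fun z => z * (↑(w⁻¹) : ZMod 28)) h3
    simpa [mul_assoc] using this
  exact (ZMod.natCast_eq_zero_iff _ _).mp h4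

end Pool.Agent.Helper82.KZ
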