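import Pool.Agent.Helper28.Koblitz.Twist

set_option autoImplicit false

/-!
# The curves with a point of order seven over a finite field
-/

namespace Pool.Agent.Helper82.KZ

open WeierstrassCurve Pool.Agent.Helper28.Koblitz

section

variable {F : Type*} [Field F]

/-- The normal form of the elliptic curves with a point `(0, 0)` of order seven. -/
def tate7 (d : F) : WeierstrassCurve F := ⟨1 + d - d ^ 2, d ^ 2 - d ^ 3, d ^ 2 - d ^ 3, 0, 0⟩

theorem tate7_c₄ (d : F) : (tate7 d).c₄ =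
    (d ^ 2 - d + 1) * (d ^ 6 - 11 * d ^ 5 + 30 * d ^ 4 - 15 * d ^ 3 - 10 * d ^ 2 + 5 * d + 1) := by
  simp only [WeierstrassCurve.c₄, WeierstrassCurve.b₂, WeierstrassCurve.b₄, tate7]
  ring

theorem tate7_c₆ (d : F) : (tate7 d).c₆ = -(d ^ 12 - 18 * d ^ 11 + 117 * d ^ 10 - 354 * d ^ 9 +
    570 * d ^ 8 - 486 * d ^ 7 + 273 * d ^ 6 - 222 * d ^ 5 + 174 * d ^ 4 - 46 * d ^ 3 -
    15 * d ^ 2 + 6 * d + 1) := by
  simp only [WeierstrassCurve.c₆, WeierstrassCurve.b₂, WeierstrassCurve.b₄, WeierstrassCurve.b₆,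
    tate7]
  ring

theorem tate7_Δ (d : F) :
    (tate7 d).Δ = d ^ 7 * (d - 1) ^ 7 * (d ^ 3 - 8 * d ^ 2 + 5 * d + 1) := by
  simp only [WeierstrassCurve.Δ, WeierstrassCurve.b₂, WeierstrassCurve.b₄, WeierstrassCurve.b₆,
    WeierstrassCurve.b₈, tate7]
  ring

theorem tate7_nonsingular {d : F} (hΔ : (tate7 d).Δ ≠ 0) {x y : F}
    (h : y ^ 2 + (1 + d - d ^ 2) * x * y + (d ^ 2 - d ^ 3) * y = x ^ 3 + (d ^ 2 - d ^ 3) * x ^ 2) :
    (tate7 d).toAffine.Nonsingular x y := by
  rw [← WeierstrassCurve.Affine.equation_iff_nonsingular_of_Δ_ne_zero hΔ,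
    WeierstrassCurve.Affine.equation_iff]
  show y ^ 2 + (1 + d - d ^ 2) * x * y + (d ^ 2 - d ^ 3) * y =
    x ^ 3 + (d ^ 2 - d ^ 3) * x ^ 2 + 0 * x + 0
  rw [h]
  ring

/-- The point `(0, 0)` has order seven. -/
theorem seven_dvd_card [Finite F] [DecidableEq F] {d : F} (hΔ : (tate7 d).Δ ≠ 0) :
    7 ∣ Nat.card (tate7 d).toAffine.Point := by
  have hd : d ≠ 0 := by
    rintro rfl
    apply hΔ
    rw [tate7_Δ]
    ring
  have hd1 : d - 1 ≠ 0 := by
    intro h
    apply hΔ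
    rw [tate7_Δ, h]
    ring
  have n1 : (tate7 d).toAffine.Nonsingular 0 0 := tate7_nonsingular hΔ (by ring)
  have n2 : (tate7 d).toAffine.Nonsingular (d ^ 3 - d ^ 2) ((d ^ 3 - d ^ 2) * (d ^ 2 - d)) :=
    tate7_nonsingular hΔ (by ring)
  have n3 : (tate7 d).toAffine.Nonsingular (d ^ 2 - d) (d ^ 3 - 2 * d ^ 2 + d) :=
    tate7_nonsingular hΔ (by ring)
  have n4 : (tate7 d).toAffine.Nonsingular (d ^ 2 - d) ((d ^ 2 - d) ^ 2) :=
    tate7_nonsingular hΔ (by ring)
  have h2 : Affine.Point.some _ _ n1 + Affine.Point.some _ _ n1 = Affine.Point.some _ _ n2 := by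
    apply add_self_eq (l := 0)
    · simp only [WeierstrassCurve.Affine.negY, tate7]
      have : d ^ 2 * (d - 1) ≠ 0 := mul_ne_zero (pow_ne_zero _ hd) hd1
      intro h
      apply this
      linear_combination -h
    · simp only [WeierstrassCurve.Affine.negY, tate7]
      ring
    · simp only [WeierstrassCurve.Affine.addX, tate7]
      ring
    · simp only [WeierstrassCurve.Affine.addY, WeierstrassCurve.Affine.negY,
        WeierstrassCurve.Affine.addX, WeierstrassCurve.Affine.negAddY, tate7]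
      ring
  have h3 : Affine.Point.some _ _ n2 + Affine.Point.some _ _ n1 = Affine.Point.some _ _ n3 := by
    apply add_chord_eq (l := d ^ 2 - d)
    · have : d ^ 2 * (d - 1) ≠ 0 := mul_ne_zero (pow_ne_zero _ hd) hd1
      intro h
      apply this
      linear_combination h
    · ring
    · simp only [WeierstrassCurve.Affine.addX, tate7]
      ring
    · simp only [WeierstrassCurve.Affine.addY, WeierstrassCurve.Affine.negY,
        WeierstrassCurve.Affine.addX, WeierstrassCurve.Affine.negAddY, tate7]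
      ring
  have h4 : Affine.Point.some _ _ n3 + Affine.Point.some _ _ n1 = Affine.Point.some _ _ n4 := by
    apply add_chord_eq (l := d - 1)
    · have : d * (d - 1) ≠ 0 := mul_ne_zero hd hd1
      intro h
      apply this
      linear_combination h
    · ring
    · simp only [WeierstrassCurve.Affine.addX, tate7]
      ring
    · simp only [WeierstrassCurve.Affine.addY, WeierstrassCurve.Affine.negY,
        WeierstrassCurve.Affine.addX, WeierstrassCurve.Affine.negAddY, tate7]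
      ring
  have h5 : Affine.Point.some _ _ n4 = -Affine.Point.some _ _ n3 := by
    rw [Affine.Point.neg_some, Affine.Point.some.injEq]
    refine ⟨rfl, ?_⟩
    simp only [WeierstrassCurve.Affine.negY, tate7]
    ring
  set P := Affine.Point.some _ _ n1 with hP
  have e2 : (2 : ℕ) • P = Affine.Point.some _ _ n2 := by rw [two_nsmul, h2]
  have e3 : (3 : ℕ) • P = Affine.Point.some _ _ n3 :=
    (succ_nsmul P 2).trans (by rw [e2, h3])
  have e4 : (4 : ℕ) • P = Affine.Point.some _ _ n4 :=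
    (succ_nsmul P 3).trans (by rw [e3, h4])
  have e7 : (7 : ℕ) • P = 0 :=
    (add_nsmul P 3 4).trans (by rw [e3, e4, h5, add_neg_cancel])
  have hne : P ≠ 0 := Affine.Point.some_ne_zero _
  have : Fact (Nat.Prime 7) := ⟨by norm_num⟩
  have ho : addOrderOf P = 7 := addOrderOf_eq_prime e7 hne
  rw [← ho]
  exact addOrderOf_dvd_natCard _

/-- The number of affine points of the short model. -/
theorem card_short (W : WeierstrassCurve F) (e2 : (2 : F) ≠ 0) (e3 : (3 : F) ≠ 0) :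
    Nat.card {q : F × F // W.toAffine.Equation q.1 q.2} =
      Nat.card {q : F × F // q.2 ^ 2 = q.1 ^ 3 + (-27 * W.c₄) * q.1 + (-54 * W.c₆)} := by
  have hs1 : ∀ q : F × F, q.2 ^ 2 = q.1 ^ 3 + (-27 * W.c₄) * q.1 + (-54 * W.c₆) ↔
      q.2 ^ 2 = q.1 ^ 3 + (-27 * ((W.a₁ ^ 2 + 4 * W.a₂) ^ 2 -
        24 * (2 * W.a₄ + W.a₁ * W.a₃))) * q.1 +
      (-54 * (-(W.a₁ ^ 2 + 4 * W.a₂) ^ 3 + 36 * (W.a₁ ^ 2 + 4 * W.a₂) *
        (2 * W.a₄ + W.a₁ * W.a₃) - 216 * (W.a₃ ^ 2 + 4 * W.a₆))) := by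
    intro q
    simp only [WeierstrassCurve.c₄, WeierstrassCurve.c₆, WeierstrassCurve.b₂,
      WeierstrassCurve.b₄, WeierstrassCurve.b₆]
  have hs2 : ∀ q : F × F, W.toAffine.Equation q.1 q.2 ↔
      q.2 ^ 2 + W.a₁ * q.1 * q.2 + W.a₃ * q.2 =
        q.1 ^ 3 + W.a₂ * q.1 ^ 2 + W.a₄ * q.1 + W.a₆ := fun q => by
    rw [WeierstrassCurve.Affine.equation_iff]
  rw [Nat.card_congr (Equiv.subtypeEquivRight hs1), Nat.card_congr (Equiv.subtypeEquivRight hs2)]
  exact (Nat.card_congr (longShortEquiv _ _ _ _ _ e2 e3)).symm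

/-- A short Weierstrass equation that is a scaling of the short model of `tate7 d` has a number
of points divisible by seven. -/
theorem seven_dvd_short [Finite F] [DecidableEq F] (e2 : (2 : F) ≠ 0) (e3 : (3 : F) ≠ 0)
    {d U C4 C6 : F} (hΔ : (tate7 d).Δ ≠ 0) (hU : U ≠ 0) (h4 : (tate7 d).c₄ * U ^ 4 = C4)
    (h6 : (tate7 d).c₆ * U ^ 6 = C6) :
    7 ∣ Nat.card (shortW (-27 * C4) (-54 * C6)).toAffine.Point := by
  have hrel := (tate7 d).c_relation
  have hΔ' : (shortW (-27 * C4) (-54 * C6)).Δ ≠ 0 := by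
    have h : (shortW (-27 * C4) (-54 * C6)).Δ = 2 ^ 12 * 3 ^ 12 * (tate7 d).Δ * U ^ 12 := by
      rw [shortW_Δ, ← h4, ← h6]
      linear_combination (-1259712 * U ^ 12) * hrel
    rw [h]
    exact mul_ne_zero (mul_ne_zero (mul_ne_zero (pow_ne_zero _ e2) (pow_ne_zero _ e3)) hΔ)
      (pow_ne_zero _ hU)
  have h7 := seven_dvd_card hΔ
  rw [card_point _ hΔ, card_short _ e2 e3] at h7
  rw [card_point _ hΔ']
  have hs : ∀ q : F × F, (shortW (-27 * C4) (-54 * C6)).toAffine.Equation q.1 q.2 ↔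
      q.2 ^ 2 = q.1 ^ 3 + (-27 * (tate7 d).c₄ * U ^ 4) * q.1 + (-54 * (tate7 d).c₆) * U ^ 6 := by
    intro q
    rw [shortW_equation, ← h4, ← h6]
    constructor
    · intro h; linear_combination h
    · intro h; linear_combination h
  rw [Nat.card_congr (Equiv.subtypeEquivRight hs), ← Nat.card_congr (scaleEquiv _ _ U hU)]
  exact h7

end

end Pool.Agent.Helper82.KZ
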