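import Pool.Agent.Helper82.KZ.Poly
import Pool.Agent.Helper82.KZ.Seven

set_option autoImplicit false

/-!
# From a root of the two-division cubic to a point of order seven
-/

namespace Pool.Agent.Helper82.KZ

open WeierstrassCurve Pool.Agent.Helper28.Koblitz

section

variable {F : Type*} [Field F]

/-- The root of the cubic gives a solution `d` of `N² (d² - d) = M² (d³ - 8 d² + 5 d + 1)`. -/
theorem exists_d {v x : F} (e2 : (2 : F) ≠ 0) (e3 : (3 : F) ≠ 0) (hn : fn v ≠ 0) (hM : fM v ≠ 0)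
    (hN : fN v ≠ 0) (hP : fP v ≠ 0) (hx : x ^ 3 + (-27 * fC4 v) * x + (-54 * fC6 v) = 0) :
    ∃ d : F, d ≠ 0 ∧ d - 1 ≠ 0 ∧
      fN v ^ 2 * (d ^ 2 - d) = fM v ^ 2 * (d ^ 3 - 8 * d ^ 2 + 5 * d + 1) := by
  obtain ⟨A, hA⟩ : ∃ A, A = fa v * x + fb v := ⟨_, rfl⟩
  obtain ⟨G, hG⟩ : ∃ G, G = fc v * x + fe v := ⟨_, rfl⟩
  have hcub : fM v ^ 2 * A ^ 3 - (8 * fM v ^ 2 + fN v ^ 2) * (A ^ 2 * G) +
      (5 * fM v ^ 2 + fN v ^ 2) * (A * G ^ 2) + fM v ^ 2 * G ^ 3 = 0 := by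
    rw [hA, hG]
    linear_combination x ^ 3 * f3_eq v + x ^ 2 * f2_eq v + x * f1_eq v + f0_eq v +
      (-16 * fM v ^ 7 * fn v ^ 3 * fN v) * hx
  have hdet : fa v * G - fc v * A = 144 * fM v ^ 7 * fn v * fN v * fP v := by
    rw [hA, hG]
    linear_combination fdet_eq v
  have hne : (144 * fM v ^ 7 * fn v * fN v * fP v : F) ≠ 0 := by
    have h144 : (144 : F) = 2 ^ 4 * 3 ^ 2 := by norm_num
    rw [h144]
    exact mul_ne_zero (mul_ne_zero (mul_ne_zero (mul_ne_zero (mul_ne_zero (pow_ne_zero _ e2)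
      (pow_ne_zero _ e3)) (pow_ne_zero _ hM)) hn) hN) hP
  have hG0 : G ≠ 0 := by
    intro h0
    rw [h0] at hcub hdet
    have h1 : fM v ^ 2 * A ^ 3 = 0 := by linear_combination hcub
    rcases mul_eq_zero.mp h1 with h | h
    · exact pow_ne_zero 2 hM h
    · have hA0 : A = 0 := by simpa using h
      apply hne
      rw [← hdet, hA0]
      ring
  refine ⟨A / G, ?_, ?_, ?_⟩
  · intro h
    have hA0 : A = 0 := by
      rcases div_eq_zero_iff.mp h with h | h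
      · exact h
      · exact absurd h hG0
    rw [hA0] at hcub
    have h1 : fM v ^ 2 * G ^ 3 = 0 := by linear_combination hcub
    exact mul_ne_zero (pow_ne_zero 2 hM) (pow_ne_zero 3 hG0) h1
  · intro h
    have hAG : A = G := by
      have h1 : A / G = 1 := sub_eq_zero.mp h
      rwa [div_eq_one_iff_eq hG0] at h1
    rw [hAG] at hcub
    have h1 : fM v ^ 2 * G ^ 3 = 0 := by linear_combination -hcub
    exact mul_ne_zero (pow_ne_zero 2 hM) (pow_ne_zero 3 hG0) h1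
  · have hd : A = A / G * G := (div_mul_cancel₀ A hG0).symm
    obtain ⟨d, hd'⟩ : ∃ d, d = A / G := ⟨_, rfl⟩
    rw [← hd'] at hd ⊢
    rw [hd] at hcub
    have h3 : G ^ 3 * (fN v ^ 2 * (d ^ 2 - d)) =
        G ^ 3 * (fM v ^ 2 * (d ^ 3 - 8 * d ^ 2 + 5 * d + 1)) := by
      linear_combination -hcub
    exact mul_left_cancel₀ (pow_ne_zero 3 hG0) h3

/-- A member of the family over a finite field whose cubic has a root has a number of points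
divisible by seven. -/
theorem seven_dvd_of_root [Finite F] [DecidableEq F] {v x s : F} (e2 : (2 : F) ≠ 0)
    (e3 : (3 : F) ≠ 0) (hn : fn v ≠ 0) (hM : fM v ≠ 0) (hN : fN v ≠ 0) (hP : fP v ≠ 0)
    (hs : s ≠ 0) {C4 C6 : F} (h4 : C4 = s ^ 4 * fC4 v) (h6 : C6 = s ^ 6 * fC6 v)
    (hx : x ^ 3 + (-27 * C4) * x + (-54 * C6) = 0) :
    7 ∣ Nat.card (shortW (-27 * C4) (-54 * C6)).toAffine.Point := by
  have hx' : (x / s ^ 2) ^ 3 + (-27 * fC4 v) * (x / s ^ 2) + (-54 * fC6 v) = 0 := by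
    rw [h4, h6] at hx
    have hxs : x = x / s ^ 2 * s ^ 2 := (div_mul_cancel₀ x (pow_ne_zero 2 hs)).symm
    obtain ⟨y, hy⟩ : ∃ y, y = x / s ^ 2 := ⟨_, rfl⟩
    rw [← hy] at hxs ⊢
    rw [hxs] at hx
    have h : s ^ 6 * (y ^ 3 + (-27 * fC4 v) * y + (-54 * fC6 v)) = s ^ 6 * 0 := by
      linear_combination hx
    exact mul_left_cancel₀ (pow_ne_zero 6 hs) h
  obtain ⟨d, hd, hd1, hroot⟩ := exists_d e2 e3 hn hM hN hP hx'
  have he : d ^ 2 - d ≠ 0 := by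
    have : d ^ 2 - d = d * (d - 1) := by ring
    rw [this]
    exact mul_ne_zero hd hd1
  obtain ⟨e, hee⟩ : ∃ e, e = d ^ 2 - d := ⟨_, rfl⟩
  obtain ⟨g, hg⟩ : ∃ g, g = d ^ 3 - 8 * d ^ 2 + 5 * d + 1 := ⟨_, rfl⟩
  rw [← hee] at he hroot
  rw [← hg] at hroot
  have hg0 : g ≠ 0 := by
    intro h0
    rw [h0, mul_zero] at hroot
    exact mul_ne_zero (pow_ne_zero 2 hN) he hroot
  have hΔ : (tate7 d).Δ ≠ 0 := by
    rw [tate7_Δ, ← hg]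
    exact mul_ne_zero (mul_ne_zero (pow_ne_zero _ hd) (pow_ne_zero _ hd1)) hg0
  -- the two relations
  have hq : (d ^ 2 - d + 1) ^ 3 = g ^ 2 + 13 * g * e + 49 * e ^ 2 := by
    rw [hg, hee]; ring
  have hq' : (e + 1) ^ 3 * fM v ^ 4 = fn v ^ 3 * fP v * e ^ 2 := by
    rw [← fQ_eq, hee, hq, ← hee]
    linear_combination (-(fN v ^ 2 * e + fM v ^ 2 * g + 13 * fM v ^ 2 * e)) * hroot
  have hs0 : e + 1 ≠ 0 := by
    intro h0
    rw [h0] at hq'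
    have : fn v ^ 3 * fP v * e ^ 2 = 0 := by rw [← hq']; ring
    exact mul_ne_zero (mul_ne_zero (pow_ne_zero 3 hn) hP) (pow_ne_zero 2 he) this
  have h4d : (tate7 d).c₄ = (e + 1) * (g ^ 2 + 5 * g * e + e ^ 2) := by
    rw [tate7_c₄, hg, hee]; ring
  have h6d : (tate7 d).c₆ = -(g ^ 4 + 14 * g ^ 3 * e + 63 * g ^ 2 * e ^ 2 + 70 * g * e ^ 3 -
      7 * e ^ 4) := by
    rw [tate7_c₆, hg, hee]; ring
  -- the scaling factor
  obtain ⟨U, hU⟩ : ∃ U, U = ((e + 1) * fM v ^ 2) / (e * fn v) := ⟨_, rfl⟩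
  have hU0 : U ≠ 0 := by
    rw [hU]
    exact div_ne_zero (mul_ne_zero hs0 (pow_ne_zero 2 hM)) (mul_ne_zero he hn)
  have hUe : U * (e * fn v) = (e + 1) * fM v ^ 2 := by
    rw [hU, div_mul_cancel₀ _ (mul_ne_zero he hn)]
  have hT4 : (g ^ 2 + 5 * g * e + e ^ 2) * fM v ^ 4 =
      e ^ 2 * (fN v ^ 4 + 5 * fN v ^ 2 * fM v ^ 2 + fM v ^ 4) := by
    linear_combination (-(fN v ^ 2 * e + fM v ^ 2 * g + 5 * fM v ^ 2 * e)) * hroot
  have hT8 : (g ^ 4 + 14 * g ^ 3 * e + 63 * g ^ 2 * e ^ 2 + 70 * g * e ^ 3 - 7 * e ^ 4) *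
      fM v ^ 8 = e ^ 4 * (fN v ^ 8 + 14 * fN v ^ 6 * fM v ^ 2 +
        63 * fN v ^ 4 * fM v ^ 4 + 70 * fN v ^ 2 * fM v ^ 6 - 7 * fM v ^ 8) := by
    have hr : fM v ^ 2 * g = fN v ^ 2 * e := hroot.symm
    have r2 : (fM v ^ 2 * g) ^ 2 = (fN v ^ 2 * e) ^ 2 := by rw [hr]
    have r3 : (fM v ^ 2 * g) ^ 3 = (fN v ^ 2 * e) ^ 3 := by rw [hr]
    have r4 : (fM v ^ 2 * g) ^ 4 = (fN v ^ 2 * e) ^ 4 := by rw [hr]
    linear_combination r4 + 14 * fM v ^ 2 * e * r3 + 63 * fM v ^ 4 * e ^ 2 * r2 +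
      70 * fM v ^ 6 * e ^ 3 * hr
  have hU4 : (tate7 d).c₄ * (U ^ 2 * s) ^ 4 = C4 := by
    rw [h4, h4d]
    have hne : (e * fn v) ^ 8 ≠ 0 := pow_ne_zero _ (mul_ne_zero he hn)
    have e1 : (U * (e * fn v)) ^ 8 = ((e + 1) * fM v ^ 2) ^ 8 := by rw [hUe]
    have e3' : ((e + 1) ^ 3 * fM v ^ 4) ^ 3 = (fn v ^ 3 * fP v * e ^ 2) ^ 3 := by rw [hq']
    apply mul_left_cancel₀ hne
    calc (e * fn v) ^ 8 * ((e + 1) * (g ^ 2 + 5 * g * e + e ^ 2) * (U ^ 2 * s) ^ 4)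
        = s ^ 4 * ((e + 1) * (g ^ 2 + 5 * g * e + e ^ 2)) * (U * (e * fn v)) ^ 8 := by ring
      _ = s ^ 4 * ((e + 1) ^ 3 * fM v ^ 4) ^ 3 *
          ((g ^ 2 + 5 * g * e + e ^ 2) * fM v ^ 4) := by rw [e1]; ring
      _ = s ^ 4 * (fn v ^ 3 * fP v * e ^ 2) ^ 3 *
          (e ^ 2 * (fN v ^ 4 + 5 * fN v ^ 2 * fM v ^ 2 + fM v ^ 4)) := by rw [e3', hT4]
      _ = (e * fn v) ^ 8 * (s ^ 4 * fC4 v) := by unfold fC4; ring
  have hU6 : (tate7 d).c₆ * (U ^ 2 * s) ^ 6 = C6 := by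
    rw [h6, h6d]
    have hne : (e * fn v) ^ 12 ≠ 0 := pow_ne_zero _ (mul_ne_zero he hn)
    have e1 : (U * (e * fn v)) ^ 12 = ((e + 1) * fM v ^ 2) ^ 12 := by rw [hUe]
    have e3' : ((e + 1) ^ 3 * fM v ^ 4) ^ 4 = (fn v ^ 3 * fP v * e ^ 2) ^ 4 := by rw [hq']
    obtain ⟨T, hT⟩ : ∃ T, T = g ^ 4 + 14 * g ^ 3 * e + 63 * g ^ 2 * e ^ 2 + 70 * g * e ^ 3 -
      7 * e ^ 4 := ⟨_, rfl⟩
    rw [← hT] at hT8 ⊢
    apply mul_left_cancel₀ hne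
    calc (e * fn v) ^ 12 * (-T * (U ^ 2 * s) ^ 6)
        = -(s ^ 6 * T) * (U * (e * fn v)) ^ 12 := by ring
      _ = -(s ^ 6) * ((e + 1) ^ 3 * fM v ^ 4) ^ 4 * (T * fM v ^ 8) := by rw [e1]; ring
      _ = -(s ^ 6) * (fn v ^ 3 * fP v * e ^ 2) ^ 4 *
          (e ^ 4 * (fN v ^ 8 + 14 * fN v ^ 6 * fM v ^ 2 +
        63 * fN v ^ 4 * fM v ^ 4 + 70 * fN v ^ 2 * fM v ^ 6 - 7 * fM v ^ 8)) := by rw [e3', hT8]
      _ = (e * fn v) ^ 12 * (s ^ 6 * fC6 v) := by unfold fC6; ring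
  exact seven_dvd_short e2 e3 hΔ (mul_ne_zero (pow_ne_zero 2 hU0) hs) hU4 hU6

end

end Pool.Agent.Helper82.KZ
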