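import Mathlib

set_option autoImplicit false
set_option maxRecDepth 4000

/-!
# The family of curves which acquire a point of order seven over their cubic two-division field

Polynomial identities in the parameter `v`.
-/

namespace Pool.Agent.Helper82.KZ

section

variable {R : Type*} [CommRing R]

/-- the polynomial `v² + v + 1` -/
def fn (v : R) : R := v ^ 2 + v + 1
/-- the polynomial `v² + v` -/
def fM (v : R) : R := v ^ 2 + v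
/-- the polynomial `v³ + 2v² - v - 1` -/
def fN (v : R) : R := v ^ 3 + 2 * v ^ 2 - v - 1
/-- the polynomial `v⁶ + 5v⁵ + 12v⁴ + 9v³ + 2v² + v + 1` -/
def fP (v : R) : R := v ^ 6 + 5 * v ^ 5 + 12 * v ^ 4 + 9 * v ^ 3 + 2 * v ^ 2 + v + 1
/-- the invariant `c₄` of the member `v` of the family -/
def fC4 (v : R) : R := fn v * fP v ^ 3 * (fN v ^ 4 + 5 * fN v ^ 2 * fM v ^ 2 + fM v ^ 4)
/-- the invariant `c₆` of the member `v` of the family -/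
def fC6 (v : R) : R := -(fP v ^ 4 * (fN v ^ 8 + 14 * fN v ^ 6 * fM v ^ 2 +
  63 * fN v ^ 4 * fM v ^ 4 + 70 * fN v ^ 2 * fM v ^ 6 - 7 * fM v ^ 8))

/-- auxiliary polynomials: the map from the roots of the cubic to the parameter of `tate7` is
`x ↦ (α x + β) / (γ x + ε)` -/
def fa (v : R) : R :=
  v ^ 8 + 5 * v ^ 7 + 10 * v ^ 6 + 9 * v ^ 5 - 3 * v ^ 3 - v ^ 2
def fb (v : R) : R :=
  -3 * v ^ 24 - 51 * v ^ 23 - 414 * v ^ 22 - 2091 * v ^ 21 - 7230 * v ^ 20 - 17805 * v ^ 19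
  - 31473 * v ^ 18 - 38922 * v ^ 17 - 30309 * v ^ 16 - 7383 * v ^ 15 + 15168 * v ^ 14 +
  23883 * v ^ 13 + 18954 * v ^ 12 + 10113 * v ^ 11 + 4449 * v ^ 10 + 2262 * v ^ 9 + 1365
  * v ^ 8 + 699 * v ^ 7 + 276 * v ^ 6 + 117 * v ^ 5 + 60 * v ^ 4 + 21 * v ^ 3 + 3 * v ^ 2
def fc (v : R) : R :=
  v ^ 6 + 3 * v ^ 5 - v ^ 3 + 2 * v ^ 2 + 3 * v + 1
def fe (v : R) : R :=
  -3 * v ^ 22 - 45 * v ^ 21 - 312 * v ^ 20 - 1293 * v ^ 19 - 3468 * v ^ 18 - 5979 * v ^ 17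
  - 5547 * v ^ 16 + 1434 * v ^ 15 + 13887 * v ^ 14 + 24063 * v ^ 13 + 24102 * v ^ 12 +
  14757 * v ^ 11 + 4224 * v ^ 10 - 1305 * v ^ 9 - 2373 * v ^ 8 - 2094 * v ^ 7 - 1671 *
  v ^ 6 - 1035 * v ^ 5 - 450 * v ^ 4 - 165 * v ^ 3 - 66 * v ^ 2 - 21 * v - 3

theorem fP_eq (v : R) : fP v = fN v ^ 2 + fN v * fM v + 7 * fM v ^ 2 := by
  unfold fP fN fM; ring

theorem fQ_eq (v : R) : fN v ^ 4 + 13 * fN v ^ 2 * fM v ^ 2 + 49 * fM v ^ 4 = fn v ^ 3 * fP v := by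
  unfold fP fN fM fn; ring

theorem fdet_eq (v : R) : fa v * fe v - fb v * fc v = 144 * fM v ^ 7 * fn v * fN v * fP v := by
  unfold fa fb fc fe fP fN fM fn; ring

theorem f3_eq (v : R) : fM v ^ 2 * fa v ^ 3 - (8 * fM v ^ 2 + fN v ^ 2) * (fa v ^ 2 * fc v) +
    (5 * fM v ^ 2 + fN v ^ 2) * (fa v * fc v ^ 2) + fM v ^ 2 * fc v ^ 3 =
    -16 * fM v ^ 7 * fn v ^ 3 * fN v := by
  unfold fa fc fN fM fn; ring

theorem f2_eq (v : R) : 3 * fM v ^ 2 * (fa v ^ 2 * fb v) -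
    (8 * fM v ^ 2 + fN v ^ 2) * (fa v ^ 2 * fe v + 2 * fa v * fb v * fc v) +
    (5 * fM v ^ 2 + fN v ^ 2) * (2 * fa v * fc v * fe v + fb v * fc v ^ 2) +
    3 * fM v ^ 2 * (fc v ^ 2 * fe v) = 0 := by
  unfold fa fb fc fe fN fM; ring

theorem f1_eq (v : R) : 3 * fM v ^ 2 * (fa v * fb v ^ 2) -
    (8 * fM v ^ 2 + fN v ^ 2) * (2 * fa v * fb v * fe v + fb v ^ 2 * fc v) +
    (5 * fM v ^ 2 + fN v ^ 2) * (fa v * fe v ^ 2 + 2 * fb v * fc v * fe v) +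
    3 * fM v ^ 2 * (fc v * fe v ^ 2) =
    -16 * fM v ^ 7 * fn v ^ 3 * fN v * (-27 * fC4 v) := by
  unfold fC4 fa fb fc fe fP fN fM fn; ring

theorem f0_eq (v : R) : fM v ^ 2 * fb v ^ 3 - (8 * fM v ^ 2 + fN v ^ 2) * (fb v ^ 2 * fe v) +
    (5 * fM v ^ 2 + fN v ^ 2) * (fb v * fe v ^ 2) + fM v ^ 2 * fe v ^ 3 =
    -16 * fM v ^ 7 * fn v ^ 3 * fN v * (-54 * fC6 v) := by
  unfold fC6 fb fe fP fN fM fn; ring

end

end Pool.Agent.Helper82.KZ
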